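import Pool.Agent.H683.SC.Stm
import Pool.Agent.H683.MC.SatClique

/-!
# Project SC (helper683): satisfiability as choice of partial assignments of the groups

After `MC/SatClique.lean` (helper683).
-/

set_option autoImplicit false

namespace Pool.Agent.H75.SCSat

open Pool.Agent.NPC Pool.Agent.H633R2 Pool.Agent.H683.MC Pool.Agent.H683.SC

theorem sOf_pos (F : Cnf) : 0 < sOf F := Nat.succ_pos _

theorem mem_grq {F : Cnf} {C : List (ℕ × Bool)} (h : C ∈ F) : ∃ i < gOf F, C ∈ grq F i := by
  obtain ⟨j, hj, rfl⟩ := List.mem_iff_getElem.1 h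
  refine ⟨j / sOf F, ?_, ?_⟩
  · unfold gOf
    exact Nat.lt_succ_of_le (Nat.div_le_div_right hj.le)
  · unfold grq
    rw [List.mem_map]
    refine ⟨(F[j], j), ?_, rfl⟩
    rw [List.mem_filter]
    refine ⟨?_, by simp⟩
    rw [List.mk_mem_zipIdx_iff_getElem?]
    exact List.getElem?_eq_getElem hj

theorem mem_of_mem_grq {F : Cnf} {C : List (ℕ × Bool)} {i : ℕ} (h : C ∈ grq F i) : C ∈ F := by
  unfold grq at h
  rw [List.mem_map] at h
  obtain ⟨⟨C', j⟩, h1, rfl⟩ := h
  rw [List.mem_filter] at h1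
  have := h1.1
  rw [List.mk_mem_zipIdx_iff_getElem?] at this
  exact List.mem_of_getElem? this

theorem grq_length_le (F : Cnf) (i : ℕ) : (grq F i).length ≤ sOf F := by
  unfold grq
  rw [List.length_map]
  have h1 : ((F.zipIdx.filter fun p => decide (p.2 / sOf F = i)).map Prod.snd).Nodup := by
    have h2 : (F.zipIdx.map Prod.snd).Nodup := by
      rw [List.zipIdx_map_snd]
      exact List.nodup_range'
    exact h2.sublist (List.Sublist.map _ List.filter_sublist)
  have h3 : ((F.zipIdx.filter fun p => decide (p.2 / sOf F = i)).map Prod.snd).toFinset ⊆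
      Finset.Ico (i * sOf F) (i * sOf F + sOf F) := by
    intro j hj
    rw [List.mem_toFinset, List.mem_map] at hj
    obtain ⟨⟨C, j'⟩, h4, rfl⟩ := hj
    rw [List.mem_filter, decide_eq_true_eq] at h4
    have h5 := h4.2
    simp only at h5
    rw [Finset.mem_Ico]
    have h6 := Nat.div_add_mod j' (sOf F)
    have h7 := Nat.mod_lt j' (sOf_pos F)
    rw [h5, mul_comm] at h6
    simp only
    omega
  have h8 := Finset.card_le_card h3
  rw [List.toFinset_card_of_nodup h1, List.length_map, Nat.card_Ico] at h8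
  omega

theorem ocq_length_le {F : Cnf} (hF : IsThree F) (i : ℕ) : (ocq F i).length ≤ 3 * sOf F := by
  unfold ocq
  rw [List.length_map, List.length_flatten]
  have h1 : ∀ G : Cnf, (∀ C ∈ G, C.length ≤ 3) → (G.map List.length).sum ≤ 3 * G.length := by
    intro G
    induction G with
    | nil => simp
    | cons C G ih =>
      intro h
      have h2 := ih fun C hC => h C (List.mem_cons_of_mem _ hC)
      have h3 := h C (by simp)
      simp
      omega
  have h2 := h1 (grq F i) fun C hC => hF C (mem_of_mem_grq hC)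
  have h3 := grq_length_le F i
  omega

theorem mem_quads {K g i a j b : ℕ} : ((i, a), (j, b)) ∈ quads K g ↔
    (i < g ∧ a < K) ∧ (j < g ∧ b < K) := by
  unfold quads
  simp only [List.mem_flatMap, List.mem_map, List.mem_range, Prod.mk.injEq]
  constructor
  · rintro ⟨i', hi', a', ha', j', hj', b', hb', ⟨rfl, rfl⟩, rfl, rfl⟩
    exact ⟨⟨hi', ha'⟩, hj', hb'⟩
  · rintro ⟨⟨hi, ha⟩, hj, hb⟩
    exact ⟨i, hi, a, ha, j, hj, b, hb, ⟨rfl, rfl⟩, rfl, rfl⟩

theorem ok2_iff {F : Cnf} {i a j b : ℕ} : ok2 F ((i, a), (j, b)) = true ↔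
    ∃ L L', (opts (ocq F i))[a]? = some L ∧ (opts (ocq F j))[b]? = some L' ∧
      cons2 L L' = true ∧ cons2 L L = true ∧
      ∀ C ∈ grq F i, ∃ l ∈ C, l ∈ L := by
  unfold ok2
  simp only
  cases h1 : (opts (ocq F i))[a]? with
  | none => simp
  | some L =>
    cases h2 : (opts (ocq F j))[b]? with
    | none => simp
    | some L' =>
      simp only [Bool.and_eq_true, List.all_eq_true, List.any_eq_true, decide_eq_true_eq]
      constructor
      · rintro ⟨h3, h4, h5⟩
        exact ⟨L, L', rfl, rfl, h3, h4, h5⟩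
      · rintro ⟨M, M', hM, hM', h3, h4, h5⟩
        rw [Option.some.injEq] at hM hM'
        subst hM
        subst hM'
        exact ⟨h3, h4, h5⟩

theorem SAT : S_SAT := by
  intro F hF
  constructor
  · rintro ⟨τ, hτ⟩
    have hex : ∀ i, ∃ a, (opts (ocq F i))[a]? = some ((ocq F i).map fun x => (x, τ x)) := fun i =>
      List.mem_iff_getElem?.1 (map_mem_opts τ _)
    choose φ hφ using hex
    have hval : ∀ i x b, (x, b) ∈ ((ocq F i).map fun x => (x, τ x)) → b = τ x := by
      intro i x b h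
      simp only [List.mem_map, Prod.mk.injEq] at h
      obtain ⟨y, _, rfl, rfl⟩ := h
      rfl
    have hc : ∀ i j, cons2 ((ocq F i).map fun x => (x, τ x)) ((ocq F j).map fun x => (x, τ x)) =
        true := by
      intro i j
      rw [cons2_iff]
      intro x b b' h1 h2
      rw [hval i x b h1, hval j x b' h2]
    refine ⟨φ, fun i _ => ?_, ?_⟩
    · obtain ⟨h1, -⟩ := List.getElem?_eq_some_iff.1 (hφ i)
      rw [opts_length] at h1
      unfold KOf
      exact lt_of_lt_of_le h1 (Nat.pow_le_pow_right (by norm_num) (ocq_length_le hF i))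
    · rintro ⟨⟨i, a⟩, j, b⟩ hf ⟨h1, h2⟩
      simp only at h1 h2
      subst h1
      subst h2
      unfold cfOf at hf
      rw [List.mem_filter] at hf
      have h3 : ok2 F ((i, φ i), (j, φ j)) = true := by
        rw [ok2_iff]
        refine ⟨_, _, hφ i, hφ j, hc i j, hc i i, fun C hC => ?_⟩
        obtain ⟨⟨x, b⟩, hl, hl'⟩ := hτ C (mem_of_mem_grq hC)
        refine ⟨(x, b), hl, ?_⟩
        rw [List.mem_map]
        refine ⟨x, ?_, ?_⟩
        · unfold ocq
          rw [List.mem_map]
          exact ⟨(x, b), List.mem_flatten.2 ⟨C, hC, hl⟩, rfl⟩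
        · simp only at hl'
          rw [hl']
      rw [h3] at hf
      exact absurd hf.2 (by simp)
  · rintro ⟨φ, hφ, hcf⟩
    have hok : ∀ i < gOf F, ∀ j < gOf F, ok2 F ((i, φ i), (j, φ j)) = true := by
      intro i hi j hj
      by_contra h
      rw [Bool.not_eq_true] at h
      refine hcf ((i, φ i), (j, φ j)) ?_ ⟨rfl, rfl⟩
      unfold cfOf
      rw [List.mem_filter]
      exact ⟨mem_quads.2 ⟨⟨hi, hφ i hi⟩, hj, hφ j hj⟩, by simp [h]⟩
    have hL : ∀ i, ∃ L : List (ℕ × Bool), i < gOf F → (opts (ocq F i))[φ i]? = some L := by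
      intro i
      by_cases hi : i < gOf F
      · obtain ⟨L, -, h1, -⟩ := ok2_iff.1 (hok i hi i hi)
        exact ⟨L, fun _ => h1⟩
      · exact ⟨[], fun h => absurd h hi⟩
    choose L hL using hL
    have hcons : ∀ i < gOf F, ∀ j < gOf F, ∀ x b b', (x, b) ∈ L i → (x, b') ∈ L j → b = b' := by
      intro i hi j hj x b b' h1 h2
      obtain ⟨M, M', e1, e2, h3, -⟩ := ok2_iff.1 (hok i hi j hj)
      rw [hL i hi, Option.some.injEq] at e1
      rw [hL j hj, Option.some.injEq] at e2
      subst e1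
      subst e2
      exact cons2_iff.1 h3 x b b' h1 h2
    classical
    refine ⟨fun x => decide (∃ i < gOf F, (x, true) ∈ L i), fun C hC => ?_⟩
    obtain ⟨i, hi, hCi⟩ := mem_grq hC
    obtain ⟨M, M', e1, e2, -, -, h5⟩ := ok2_iff.1 (hok i hi i hi)
    rw [hL i hi, Option.some.injEq] at e1
    subst e1
    obtain ⟨⟨x, b⟩, hl, hl'⟩ := h5 C hCi
    refine ⟨(x, b), hl, ?_⟩
    simp only
    cases b with
    | true => exact decide_eq_true ⟨i, hi, hl'⟩
    | false =>
      apply decide_eq_false
      rintro ⟨t, ht, h6⟩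
      exact absurd (hcons i hi t ht x false true hl' h6) (by decide)

end Pool.Agent.H75.SCSat
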