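import Pool.Agent.H979.FC.Stm

set_option autoImplicit false

open MeasureTheory ProbabilityTheory Finset
open scoped ENNReal NNReal

/-!
# Task FC CMP: comparison of two infinite product fields for the survival event
-/

namespace Pool.Agent.H75

open Pool.Agent.H979.FR Pool.Agent.H979.FC

instance instPF {I : Type} (μ : I → ℝ≥0) : IsProbabilityMeasure (PF μ) := by
  unfold PF; infer_instance

theorem measurable_or {I : Type} :
    Measurable (fun (p : (I → Bool) × (I → Bool)) (i : I) => p.1 i || p.2 i) := by
  refine measurable_pi_lambda _ fun i => ?_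
  have h : Measurable (fun q : Bool × Bool => q.1 || q.2) := measurable_of_countable _
  have h2 : Measurable (fun p : (I → Bool) × (I → Bool) => (p.1 i, p.2 i)) :=
    ((measurable_pi_apply i).comp measurable_fst).prodMk
      ((measurable_pi_apply i).comp measurable_snd)
  exact h.comp h2

theorem measurable_and {I : Type} [DecidableEq I] (B : Finset I) :
    Measurable (fun (N : I → Bool) (i : I) => N i && decide (i ∈ B)) := by
  refine measurable_pi_lambda _ fun i => ?_
  have h : Measurable (fun q : Bool => q && decide (i ∈ B)) := measurable_of_countable _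
  exact h.comp (measurable_pi_apply i)

/-- monotonicity of the product fields -/
theorem PF_mono (hU : S_UNI) {I : Type} [Countable I] {μ μ' : I → ℝ≥0} (h : ∀ i, μ i ≤ μ' i)
    {S : Set (I → Bool)} (hS : MeasurableSet S) (hI : Inc S) : PF μ S ≤ PF μ' S := by
  have h1 : (fun i => μ i + (μ' i - μ i)) = μ' := by
    funext i
    exact add_tsub_cancel_of_le (h i)
  have h2 := hU I μ (fun i => μ' i - μ i)
  rw [h1] at h2
  rw [← h2, Measure.map_apply measurable_or hS]
  calc PF μ S = ((PF μ).prod (PF fun i => μ' i - μ i)) (S ×ˢ Set.univ) := by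
        rw [Measure.prod_prod]
        simp
    _ ≤ _ := by
        refine measure_mono ?_
        rintro ⟨A, N⟩ ⟨hA, -⟩
        refine hI A _ (fun i hi => ?_) hA
        simp [hi]

/-- the law of the restriction of a field to a finite set -/
theorem PF_restrict (hV : S_VOID) (hP : S_PFV) {I : Type} [Countable I] [DecidableEq I]
    (ν : I → ℝ≥0) (B : Finset I) :
    (PF ν).map (fun (N : I → Bool) (i : I) => N i && decide (i ∈ B)) =
      PF (fun i => if i ∈ B then ν i else 0) := by
  have : IsProbabilityMeasure
      ((PF ν).map (fun (N : I → Bool) (i : I) => N i && decide (i ∈ B))) :=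
    Measure.isProbabilityMeasure_map (measurable_and B).aemeasurable
  refine hV I _ _ fun F => ?_
  have hm : MeasurableSet {A : I → Bool | ∀ i ∈ F, A i = false} := by
    have : {A : I → Bool | ∀ i ∈ F, A i = false} = ⋂ i ∈ F, (fun A : I → Bool => A i) ⁻¹' {false} := by
      ext A; simp
    rw [this]
    exact Finset.measurableSet_biInter F fun i _ => measurable_pi_apply i (measurableSet_singleton _)
  rw [Measure.map_apply (measurable_and B) hm, hP]
  have h1 : (fun (N : I → Bool) (i : I) => N i && decide (i ∈ B)) ⁻¹'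
      {A : I → Bool | ∀ i ∈ F, A i = false} = {A | ∀ i ∈ F.filter (fun i => i ∈ B), A i = false} := by
    ext A
    simp only [Set.mem_preimage, Set.mem_ofPred_eq, Finset.mem_filter]
    constructor
    · intro h i hi
      have := h i hi.1
      simpa [hi.2] using this
    · intro h i hi
      by_cases hb : i ∈ B
      · simp [h i ⟨hi, hb⟩]
      · simp [hb]
  rw [h1, hP]
  have h2 : (∑ i ∈ F.filter (fun i => i ∈ B), (ν i : ℝ)) =
      ∑ i ∈ F, (((if i ∈ B then ν i else 0 : ℝ≥0)) : ℝ) := by
    rw [Finset.sum_filter]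
    refine Finset.sum_congr rfl fun i _ => ?_
    split_ifs <;> simp
  rw [h2]

theorem fc_cmp (hV : S_VOID) (hP : S_PFV) (hU : S_UNI) (hB : S_BLOCKS) (hS : S_SRV) : S_CMP := by
  intro V _ _ o μ0 ν μ' a ha hν hle
  obtain ⟨-, -, hN, hInt, hanti, hfin, hblk⟩ := hS V o
  -- step B
  have stepB : ∀ (n : ℕ) (B : Finset (V × List V)),
      PF (fun i => μ0 i + if i ∈ B then ν i else 0) (SurvN o n) ≤ PF μ' (SurvN o n) := by
    intro n B
    set δ : V × List V → ℝ≥0 := fun p => (2 * ((steps p.1 p.2).card : ℝ) *
      ((1 - Real.exp (-a))⁻¹) ^ (steps p.1 p.2).card * ν p).toNNReal with hδ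
    have h1 := hB (V × List V) (SurvN o n) (hN n).1 (hN n).2 (fun p => steps p.1 p.2)
      (B.filter fun p => ν p ≠ 0) (fun γ _ A hA => hblk n γ.1 γ.2 A hA) μ0 a ha
      (fun γ hγ i hi => hν γ.1 γ.2 (Finset.mem_filter.1 hγ).2 i hi) ν δ
      (fun γ _ => by
        rw [hδ]
        exact Real.le_coe_toNNReal _)
    have h2 : (fun i => μ0 i + if i ∈ B.filter (fun p => ν p ≠ 0) then ν i else 0) =
        (fun i => μ0 i + if i ∈ B then ν i else 0) := by
      funext i
      by_cases hi : i ∈ B <;> by_cases h0 : ν i = 0 <;> simp [hi, h0]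
    rw [h2] at h1
    refine h1.trans (PF_mono hU (fun i => ?_) (hN n).1 (hN n).2)
    have h3 : ((∑ γ ∈ B.filter (fun p => ν p ≠ 0),
        if i ∈ steps γ.1 γ.2 then δ γ else 0 : ℝ≥0) : ℝ≥0∞) ≤
        ∑' p : V × List V, (if i ∈ steps p.1 p.2 then
          ENNReal.ofReal (2 * ((steps p.1 p.2).card : ℝ) *
          ((1 - Real.exp (-a))⁻¹) ^ (steps p.1 p.2).card * ν p) else 0) := by
      rw [ENNReal.ofNNReal_finsetSum]
      refine le_trans (Finset.sum_le_sum fun p _ => ?_) (ENNReal.sum_le_tsum _)
      by_cases hi : i ∈ steps p.1 p.2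
      · simp only [hi, if_true]
        exact le_of_eq rfl
      · simp [hi]
    have h4 := (add_le_add_right h3 (μ0 i : ℝ≥0∞)).trans (hle i)
    exact_mod_cast h4
  -- step C
  have stepC : ∀ n : ℕ, PF (fun i => μ0 i + ν i) (SurvN o n) ≤ PF μ' (SurvN o n) := by
    intro n
    rw [← hU _ μ0 ν, Measure.map_apply measurable_or (hN n).1]
    set E : Finset (V × List V) → Set ((V × List V → Bool) × (V × List V → Bool)) := fun B =>
      {p | (fun i => p.1 i || (p.2 i && decide (i ∈ B))) ∈ SurvN o n} with hE
    have hsub : (fun (p : (V × List V → Bool) × (V × List V → Bool)) (i : V × List V) =>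
        p.1 i || p.2 i) ⁻¹' (SurvN o n) ⊆ ⋃ B, E B := by
      rintro ⟨A, N⟩ hA
      obtain ⟨F, hF⟩ := hfin n _ hA
      refine Set.mem_iUnion.2 ⟨F, ?_⟩
      refine (hN n).2 _ _ (fun i hi => ?_) hF
      simp only [Bool.and_eq_true, Bool.or_eq_true] at hi ⊢
      rcases hi.1 with h | h
      · exact Or.inl h
      · exact Or.inr ⟨h, hi.2⟩
    have hdir : Directed (· ⊆ ·) E := by
      refine directed_of_isDirected_le fun B B' hBB' => ?_
      rintro ⟨A, N⟩ hA
      refine (hN n).2 _ _ (fun i hi => ?_) hA
      simp only [Bool.and_eq_true, Bool.or_eq_true, decide_eq_true_eq] at hi ⊢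
      rcases hi with h | h
      · exact Or.inl h
      · exact Or.inr ⟨h.1, hBB' h.2⟩
    refine (measure_mono hsub).trans ?_
    rw [hdir.measure_iUnion]
    refine iSup_le fun B => ?_
    have h1 : ((PF μ0).prod (PF ν)) (E B) =
        PF (fun i => μ0 i + if i ∈ B then ν i else 0) (SurvN o n) := by
      rw [← hU _ μ0 (fun i => if i ∈ B then ν i else 0), Measure.map_apply measurable_or (hN n).1,
        ← PF_restrict hV hP ν B]
      have h2 : (PF μ0).prod ((PF ν).map (fun (N : V × List V → Bool) (i : V × List V) =>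
          N i && decide (i ∈ B))) = ((PF μ0).prod (PF ν)).map
          (Prod.map id (fun (N : V × List V → Bool) (i : V × List V) =>
          N i && decide (i ∈ B))) := by
        have := Measure.map_prod_map (PF μ0) (PF ν) measurable_id (measurable_and B)
        rw [Measure.map_id] at this
        exact this
      rw [h2, Measure.map_apply (measurable_id.prodMap (measurable_and B))
        (measurable_or (hN n).1)]
      rfl
    rw [h1]
    exact stepB n B
  -- step D
  calc PF (fun i => μ0 i + ν i) (Surv o) ≤ ⨅ n, PF μ' (SurvN o n) := by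
        refine le_iInf fun n => (measure_mono ?_).trans (stepC n)
        rw [hInt]
        exact Set.iInter_subset _ n
    _ = PF μ' (Surv o) := by
        rw [hInt, Antitone.measure_iInter (fun m n h => hanti m n h)
          (fun n => (hN n).1.nullMeasurableSet) ⟨0, measure_ne_top _ _⟩]

end Pool.Agent.H75
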